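import Mathlib

set_option autoImplicit false

/-!
# Counting planar configurations near convex position

For every fixed `k ≥ 2`, the number `c_k(n)` of order types of `n`-point configurations `S` with
`DTC(S) < k` satisfies `log c_k(n) = Θ(n)`.

* Upper bound: sort the points by a generic linear coordinate. The order type is recovered from the
  positions of the (at most `k - 1`) removed points, one bit for every other point, and, for every
  removed point `a`, the ranking of the slopes of the lines from `a` to the other points. On the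
  points in convex position on one side of `a` and on the same (upper or lower) chain, the slope is
  unimodal, so the ranking is encoded by `O(n)` bits.
* Lower bound: one point `(0, -1)` and points on the parabola `y = x²` with parameters `i + 2` or
  `1 / (i + 2)`, chosen freely.
-/

namespace Pool.Agent.Results.MP_6a769b_co.LogLinear

open Filter Asymptotics

/-- The Euclidean plane. -/
abbrev Plane : Type := EuclideanSpace ℝ (Fin 2)

/-- The determinant of the vectors `b - a` and `c - a`. -/
def det3 (a b c : Plane) : ℝ := (b 0 - a 0) * (c 1 - a 1) - (b 1 - a 1) * (c 0 - a 0)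

/-- The orientation of an ordered triple: the sign `1`, `-1` or `0` of the determinant. -/
noncomputable def orient (a b c : Plane) : SignType := SignType.sign (det3 a b c)

/-- Two configurations are equivalent (have the same order type): some bijection preserves the
orientation of every ordered triple. -/
def SameOrderType (S T : Finset Plane) : Prop :=
  ∃ e : S ≃ T, ∀ a b c : S,
    orient (e a : Plane) (e b : Plane) (e c : Plane) = orient (a : Plane) (b : Plane) (c : Plane)

/-- Equivalence of configurations is an equivalence relation. -/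
theorem sameOrderType_equivalence : Equivalence SameOrderType where
  refl S := ⟨Equiv.refl _, fun _ _ _ => rfl⟩
  symm := by
    rintro S T ⟨e, he⟩
    refine ⟨e.symm, fun a b c => ?_⟩
    have := he (e.symm a) (e.symm b) (e.symm c)
    simp only [Equiv.apply_symm_apply] at this
    exact this.symm
  trans := by
    rintro S T U ⟨e, he⟩ ⟨f, hf⟩
    exact ⟨e.trans f, fun a b c => (hf _ _ _).trans (he _ _ _)⟩

/-- The setoid of configurations up to equivalence. -/
def orderTypeSetoid : Setoid (Finset Plane) := ⟨SameOrderType, sameOrderType_equivalence⟩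

/-- Convex position: every point is a vertex (extreme point) of the convex hull. -/
def ConvexPosition (S : Finset Plane) : Prop :=
  ∀ p ∈ S, p ∈ (convexHull ℝ (S : Set Plane)).extremePoints ℝ

/-- `DTC(S)`: the minimum number `m` of points of `S` whose removal leaves a set `V` in convex
position. -/
noncomputable def DTC (S : Finset Plane) : ℕ :=
  sInf {m | ∃ V : Finset Plane, V ⊆ S ∧ ConvexPosition V ∧ V.card + m = S.card}

/-- The order types of the `n`-point configurations `S` with `DTC(S) < k`. -/
def classes (k n : ℕ) : Set (Quotient orderTypeSetoid) :=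
  {q | ∃ S : Finset Plane, S.card = n ∧ DTC S < k ∧ Quotient.mk orderTypeSetoid S = q}

/-- `c_k(n)`: the number of order types of `n`-point configurations `S` with `DTC(S) < k`. -/
noncomputable def c (k n : ℕ) : ℕ := (classes k n).ncard

theorem convexPosition_empty : ConvexPosition ∅ := by
  intro p hp
  simp at hp

/-- the minimum is attained -/
theorem exists_of_DTC_lt {S : Finset Plane} {k : ℕ} (h : DTC S < k) :
    ∃ V : Finset Plane, V ⊆ S ∧ ConvexPosition V ∧ S.card < V.card + k := by
  have hne : {m | ∃ V : Finset Plane, V ⊆ S ∧ ConvexPosition V ∧ V.card + m = S.card}.Nonempty :=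
    ⟨S.card, ∅, Finset.empty_subset _, convexPosition_empty, by simp⟩
  obtain ⟨V, h1, h2, h3⟩ := Nat.sInf_mem hne
  refine ⟨V, h1, h2, ?_⟩
  have h4 : sInf {m | ∃ V : Finset Plane, V ⊆ S ∧ ConvexPosition V ∧ V.card + m = S.card} < k := h
  omega

/-! ### Unimodal functions -/

open Classical in
/-- the rank of `i` -/
noncomputable def rk {n : ℕ} (s : Fin n → ℝ) (i : Fin n) : ℕ :=
  (Finset.univ.filter (fun j => s j < s i)).card

theorem rk_le {n : ℕ} (s : Fin n → ℝ) (i : Fin n) : rk s i ≤ n := by
  unfold rk
  refine (Finset.card_filter_le _ _).trans ?_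
  simp

theorem rk_mono {n : ℕ} (s : Fin n → ℝ) {i j : Fin n} (h : s i ≤ s j) : rk s i ≤ rk s j := by
  unfold rk
  apply Finset.card_le_card
  intro k hk
  simp only [Finset.mem_filter, Finset.mem_univ, true_and] at hk ⊢
  linarith

theorem rk_strict {n : ℕ} (s : Fin n → ℝ) {i j : Fin n} (h : s i < s j) : rk s i < rk s j := by
  unfold rk
  apply Finset.card_lt_card
  rw [Finset.ssubset_iff_of_subset]
  · exact ⟨i, by simpa using h, by simp⟩
  · intro k hk
    simp only [Finset.mem_filter, Finset.mem_univ, true_and] at hk ⊢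
    linarith

theorem rk_lt_iff {n : ℕ} (s : Fin n → ℝ) (i j : Fin n) : rk s i < rk s j ↔ s i < s j := by
  constructor
  · intro h
    by_contra hc
    exact absurd (rk_mono s (not_lt.mp hc)) (by omega)
  · exact rk_strict s

section code

variable {n : ℕ} {Λ : Type}

open Classical in
/-- the flag of a class: is the function monotone on it -/
noncomputable def flag (s : Fin n → ℝ) (lab : Fin n → Λ) (x : Λ) : Bool :=
  decide (MonotoneOn s {j | lab j = x})

/-- shifted rank, strictly increasing on monotone classes -/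
noncomputable def up (s : Fin n → ℝ) (i : Fin n) : Fin (2 * n + 1) :=
  ⟨i + rk s i, by have := rk_le s i; omega⟩

/-- shifted rank, strictly increasing on antitone classes -/
noncomputable def down (s : Fin n → ℝ) (i : Fin n) : Fin (2 * n + 1) :=
  ⟨i + (n - rk s i), by omega⟩

open Classical in
/-- the set coding the ranks on a class -/
noncomputable def cset (s : Fin n → ℝ) (lab : Fin n → Λ) (x : Λ) : Finset (Fin (2 * n + 1)) :=
  (Finset.univ.filter (fun j => lab j = x)).image
    (if flag s lab x then up s else down s)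

theorem eqOn_of_image_eq {m : ℕ} (A : Set (Fin n)) (f g : Fin n → Fin m) (hf : StrictMonoOn f A)
    (hg : StrictMonoOn g A) (h : f '' A = g '' A) : Set.EqOn f g A := by
  have hf' : StrictMono (fun a : A => f a) := fun a b hab => hf a.2 b.2 hab
  have hg' : StrictMono (fun a : A => g a) := fun a b hab => hg a.2 b.2 hab
  have hr : Set.range (fun a : A => f a) = Set.range (fun a : A => g a) := by
    rw [Set.image_eq_range, Set.image_eq_range] at h
    exact h
  have := (StrictMono.range_inj hf' hg').mp hr
  intro a ha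
  exact congrFun this ⟨a, ha⟩

theorem up_strict {s : Fin n → ℝ} {A : Set (Fin n)} (h : MonotoneOn s A) :
    StrictMonoOn (up s) A := by
  intro i hi j hj hij
  have h1 := rk_mono s (h hi hj hij.le)
  have h2 : (i : ℕ) < j := hij
  show (i : ℕ) + rk s i < j + rk s j
  omega

theorem down_strict {s : Fin n → ℝ} {A : Set (Fin n)} (h : AntitoneOn s A) :
    StrictMonoOn (down s) A := by
  intro i hi j hj hij
  have h1 := rk_mono s (h hi hj hij.le)
  have h2 : (i : ℕ) < j := hij
  have h3 := rk_le s i
  show (i : ℕ) + (n - rk s i) < j + (n - rk s j)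
  omega

/-- the code of a piecewise monotone function determines the comparisons of its values -/
theorem rk_eq_of_code {s s' : Fin n → ℝ} {lab : Fin n → Λ}
    (h : ∀ x, MonotoneOn s {j | lab j = x} ∨ AntitoneOn s {j | lab j = x})
    (h' : ∀ x, MonotoneOn s' {j | lab j = x} ∨ AntitoneOn s' {j | lab j = x})
    (hf : ∀ x, flag s lab x = flag s' lab x) (hc : ∀ x, cset s lab x = cset s' lab x) :
    rk s = rk s' := by
  classical
  funext i
  have hf := hf (lab i)
  have hc := hc (lab i)
  have h := h (lab i)
  have h' := h' (lab i)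
  have e : ∀ g : Fin n → Fin (2 * n + 1),
      (((Finset.univ.filter (fun j => lab j = lab i)).image g : Finset _) : Set (Fin (2 * n + 1))) =
        g '' {j | lab j = lab i} := by
    intro g
    ext y
    simp
  by_cases hm : MonotoneOn s {j | lab j = lab i}
  · have f1 : flag s lab (lab i) = true := by simpa [flag] using hm
    have f2 : flag s' lab (lab i) = true := by rw [← hf, f1]
    have hm' : MonotoneOn s' {j | lab j = lab i} := by simpa [flag] using f2
    have hc2 := congrArg (fun A : Finset (Fin (2 * n + 1)) => (A : Set (Fin (2 * n + 1)))) hc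
    simp only [cset, f1, f2, if_true] at hc2
    rw [e, e] at hc2
    have := eqOn_of_image_eq _ _ _ (up_strict hm) (up_strict hm') hc2 (show lab i = lab i from rfl)
    have h1 : (i : ℕ) + rk s i = i + rk s' i := congrArg Fin.val this
    omega
  · have f1 : flag s lab (lab i) = false := by simpa [flag] using hm
    have f2 : flag s' lab (lab i) = false := by rw [← hf, f1]
    have hm' : ¬ MonotoneOn s' {j | lab j = lab i} := by simpa [flag] using f2
    have ha := h.resolve_left hm
    have ha' := h'.resolve_left hm'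
    have hc2 := congrArg (fun A : Finset (Fin (2 * n + 1)) => (A : Set (Fin (2 * n + 1)))) hc
    simp only [cset, f1, f2, Bool.false_eq_true, if_false] at hc2
    rw [e, e] at hc2
    have := eqOn_of_image_eq _ _ _ (down_strict ha) (down_strict ha') hc2
      (show lab i = lab i from rfl)
    have h1 : (i : ℕ) + (n - rk s i) = i + (n - rk s' i) := congrArg Fin.val this
    have h2 := rk_le s i
    have h3 := rk_le s' i
    omega

/-- no element of a class is a weak peak between two others -/
def NoPeak (s : Fin n → ℝ) (g : Fin n → Λ) (x : Λ) : Prop :=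
  ∀ i j l, g i = x → g j = x → g l = x → i < j → j < l → ¬ (s i ≤ s j ∧ s l ≤ s j)

/-- no element of a class is a weak valley between two others -/
def NoValley (s : Fin n → ℝ) (g : Fin n → Λ) (x : Λ) : Prop :=
  ∀ i j l, g i = x → g j = x → g l = x → i < j → j < l → ¬ (s j ≤ s i ∧ s j ≤ s l)

/-- refining the classes to monotone ones -/
theorem exists_refine (s : Fin n → ℝ) (g : Fin n → Λ) (h : ∀ x, NoPeak s g x ∨ NoValley s g x) :
    ∃ lab : Fin n → Λ × Bool,
      ∀ x, MonotoneOn s {j | lab j = x} ∨ AntitoneOn s {j | lab j = x} := by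
  classical
  refine ⟨fun j => (g j, if NoPeak s g (g j) then decide (∃ l, j < l ∧ g l = g j ∧ s l ≤ s j)
    else decide (∃ l, j < l ∧ g l = g j ∧ s j ≤ s l)), ?_⟩
  rintro ⟨x, b⟩
  by_cases hp : NoPeak s g x
  · cases b
    · left
      intro i hi j hj hij
      simp only [Set.mem_ofPred_eq, Prod.mk.injEq] at hi hj
      obtain ⟨hi, hi'⟩ := hi
      obtain ⟨hj, hj'⟩ := hj
      subst hi
      rw [if_pos hp] at hi'
      simp only [decide_eq_false_iff_not, not_exists, not_and, not_le] at hi'
      rcases hij.eq_or_lt with rfl | hlt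
      · exact le_refl _
      · exact (hi' j hlt hj).le
    · right
      intro i hi j hj hij
      simp only [Set.mem_ofPred_eq, Prod.mk.injEq] at hi hj
      obtain ⟨hi, hi'⟩ := hi
      obtain ⟨hj, hj'⟩ := hj
      subst hj
      rw [if_pos hp] at hj'
      simp only [decide_eq_true_eq] at hj'
      obtain ⟨l, h1, h2, h3⟩ := hj'
      rcases hij.eq_or_lt with rfl | hlt
      · exact le_refl _
      · by_contra hc
        exact hp i j l hi rfl h2 hlt h1 ⟨(not_le.mp hc).le, h3⟩
  · have hv := (h x).resolve_left hp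
    cases b
    · right
      intro i hi j hj hij
      simp only [Set.mem_ofPred_eq, Prod.mk.injEq] at hi hj
      obtain ⟨hi, hi'⟩ := hi
      obtain ⟨hj, hj'⟩ := hj
      subst hi
      rw [if_neg hp] at hi'
      simp only [decide_eq_false_iff_not, not_exists, not_and, not_le] at hi'
      rcases hij.eq_or_lt with rfl | hlt
      · exact le_refl _
      · exact (hi' j hlt hj).le
    · left
      intro i hi j hj hij
      simp only [Set.mem_ofPred_eq, Prod.mk.injEq] at hi hj
      obtain ⟨hi, hi'⟩ := hi
      obtain ⟨hj, hj'⟩ := hj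
      subst hj
      rw [if_neg hp] at hj'
      simp only [decide_eq_true_eq] at hj'
      obtain ⟨l, h1, h2, h3⟩ := hj'
      rcases hij.eq_or_lt with rfl | hlt
      · exact le_refl _
      · by_contra hc
        exact hv i j l hi rfl h2 hlt h1 ⟨(not_le.mp hc).le, h3⟩

end code

/-! ### Realizations in sorted coordinates -/

/-- the determinant in coordinates -/
def D {n : ℕ} (x y : Fin n → ℝ) (i j l : Fin n) : ℝ :=
  (x j - x i) * (y l - y i) - (y j - y i) * (x l - x i)

/-- slopes from the point `a` -/
noncomputable def slope {n : ℕ} (x y : Fin n → ℝ) (a j : Fin n) : ℝ := (y j - y a) / (x j - x a)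

/-- Sorted coordinates, with marked points `a` and all other points strictly exposed among the
unmarked ones. -/
structure Good {n K : ℕ} (x y : Fin n → ℝ) (a : Fin K → Fin n) : Prop where
  mono : StrictMono x
  exp : ∀ i, i ∉ Set.range a → ∃ α β : ℝ, ∀ j, j ∉ Set.range a → j ≠ i →
    α * x j + β * y j < α * x i + β * y i

section good

variable {n K : ℕ} {x y : Fin n → ℝ} {a : Fin K → Fin n}

open Classical in
/-- the chain bit of a point -/
noncomputable def low (x y : Fin n → ℝ) (a : Fin K → Fin n) (j : Fin n) : Bool :=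
  decide (∃ i l, i ∉ Set.range a ∧ l ∉ Set.range a ∧ i < j ∧ j < l ∧ 0 < D x y i j l)

theorem sign_key (h : Good x y a) {j : Fin n} (hj : j ∉ Set.range a) :
    ∃ β : ℝ, ∀ i l, i ∉ Set.range a → l ∉ Set.range a → i < j → j < l → β * D x y i j l < 0 := by
  obtain ⟨α, β, hαβ⟩ := h.exp j hj
  refine ⟨β, fun i l hi hl hij hjl => ?_⟩
  have h1 := hαβ i hi hij.ne
  have h2 := hαβ l hl hjl.ne'
  have h3 := h.mono hij
  have h4 := h.mono hjl
  unfold D
  have e1 : 0 < (x l - x j) * (α * x j + β * y j - (α * x i + β * y i)) :=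
    mul_pos (by linarith) (by linarith)
  have e2 : 0 < (x j - x i) * (α * x j + β * y j - (α * x l + β * y l)) :=
    mul_pos (by linarith) (by linarith)
  nlinarith

theorem low_pos (h : Good x y a) {i j l : Fin n} (hi : i ∉ Set.range a) (hj : j ∉ Set.range a)
    (hl : l ∉ Set.range a) (hij : i < j) (hjl : j < l) (hb : low x y a j = true) :
    0 < D x y i j l := by
  obtain ⟨β, hβ⟩ := sign_key h hj
  unfold low at hb
  rw [decide_eq_true_eq] at hb
  obtain ⟨i', l', hi', hl', hij', hjl', hD⟩ := hb
  have h1 := hβ i' l' hi' hl' hij' hjl'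
  have h2 := hβ i l hi hl hij hjl
  have h3 : β < 0 := by
    by_contra hc
    have := mul_nonneg (not_lt.mp hc) hD.le
    linarith
  by_contra hc
  have := mul_nonneg_of_nonpos_of_nonpos h3.le (not_lt.mp hc)
  linarith

theorem low_neg (h : Good x y a) {i j l : Fin n} (hi : i ∉ Set.range a) (hj : j ∉ Set.range a)
    (hl : l ∉ Set.range a) (hij : i < j) (hjl : j < l) (hb : low x y a j = false) :
    D x y i j l < 0 := by
  obtain ⟨β, hβ⟩ := sign_key h hj
  have h2 := hβ i l hi hl hij hjl
  by_contra hc
  rcases (not_lt.mp hc).eq_or_lt with h3 | h3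
  · rw [← h3] at h2
    simp at h2
  · unfold low at hb
    rw [decide_eq_false_iff_not] at hb
    exact hb ⟨i, l, hi, hl, hij, hjl, h3⟩

theorem D_slope (hx : StrictMono x) (t j l : Fin n) :
    D x y t j l = (x j - x t) * (x l - x t) * (slope x y t l - slope x y t j) := by
  unfold D slope
  by_cases hj : j = t
  · subst hj; simp
  by_cases hl : l = t
  · subst hl; simp
  have h1 : x j - x t ≠ 0 := sub_ne_zero.mpr (fun h => hj (hx.injective h))
  have h2 : x l - x t ≠ 0 := sub_ne_zero.mpr (fun h => hl (hx.injective h))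
  field_simp

theorem D_add (t i j l : Fin n) : D x y i j l = D x y t i j + D x y t j l - D x y t i l := by
  unfold D; ring

open Classical in
/-- the group of a point, as seen from `t` -/
noncomputable def grp (x y : Fin n → ℝ) (a : Fin K → Fin n) (t : Fin n) (j : Fin n) :
    (Bool × Bool) ⊕ Fin K :=
  if h : j ∈ Set.range a then Sum.inr (Classical.choose h)
  else Sum.inl (decide (t < j), low x y a j)

theorem grp_inr {t j : Fin n} {u : Fin K} (h : grp x y a t j = Sum.inr u) : a u = j := by
  unfold grp at h
  split_ifs at h with h1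
  have h2 := Classical.choose_spec h1
  simp only [Sum.inr.injEq] at h
  rw [h] at h2
  exact h2

theorem grp_inl {t j : Fin n} {b b' : Bool} (h : grp x y a t j = Sum.inl (b, b')) :
    j ∉ Set.range a ∧ decide (t < j) = b ∧ low x y a j = b' := by
  unfold grp at h
  split_ifs at h with h1
  simp only [Sum.inl.injEq, Prod.mk.injEq] at h
  exact ⟨h1, h.1, h.2⟩

theorem unimodal (h : Good x y a) (t : Fin n) (ht : t ∈ Set.range a) (g : (Bool × Bool) ⊕ Fin K) :
    NoPeak (slope x y t) (grp x y a t) g ∨ NoValley (slope x y t) (grp x y a t) g := by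
  rcases g with ⟨b, b'⟩ | u
  · have key : ∀ i j l, i ∉ Set.range a → j ∉ Set.range a → l ∉ Set.range a → i < j → j < l →
        D x y i j l = (x i - x t) * (x l - x j) * (slope x y t i - slope x y t j)
          + (x l - x t) * (x j - x i) * (slope x y t l - slope x y t j) := by
      intro i j l hi hj hl hij hjl
      rw [D_add t i j l, D_slope h.mono, D_slope h.mono, D_slope h.mono]
      ring
    have hd : ∀ j, j ∉ Set.range a → decide (t < j) = true → 0 < x j - x t := by
      intro j hj hb
      rw [decide_eq_true_eq] at hb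
      have := h.mono hb
      linarith
    have hd' : ∀ j, j ∉ Set.range a → decide (t < j) = false → x j - x t < 0 := by
      intro j hj hb
      rw [decide_eq_false_iff_not, not_lt] at hb
      have hne : j ≠ t := fun he => hj (he ▸ ht)
      have := h.mono (lt_of_le_of_ne hb hne)
      linarith
    cases b <;> cases b'
    · -- left, upper: no peak
      left
      rintro i j l hi hj hl hij hjl ⟨h1, h2⟩
      obtain ⟨hi1, hi2, hi3⟩ := grp_inl hi
      obtain ⟨hj1, hj2, hj3⟩ := grp_inl hj
      obtain ⟨hl1, hl2, hl3⟩ := grp_inl hl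
      have e := low_neg h hi1 hj1 hl1 hij hjl hj3
      rw [key i j l hi1 hj1 hl1 hij hjl] at e
      have a1 := hd' i hi1 hi2
      have a2 := hd' l hl1 hl2
      have a3 := h.mono hij
      have a4 := h.mono hjl
      have p1 : 0 ≤ (x i - x t) * (x l - x j) * (slope x y t i - slope x y t j) :=
        mul_nonneg_of_nonpos_of_nonpos (mul_nonpos_of_nonpos_of_nonneg a1.le (by linarith))
          (by linarith)
      have p2 : 0 ≤ (x l - x t) * (x j - x i) * (slope x y t l - slope x y t j) :=
        mul_nonneg_of_nonpos_of_nonpos (mul_nonpos_of_nonpos_of_nonneg a2.le (by linarith))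
          (by linarith)
      linarith
    · -- left, lower: no valley
      right
      rintro i j l hi hj hl hij hjl ⟨h1, h2⟩
      obtain ⟨hi1, hi2, hi3⟩ := grp_inl hi
      obtain ⟨hj1, hj2, hj3⟩ := grp_inl hj
      obtain ⟨hl1, hl2, hl3⟩ := grp_inl hl
      have e := low_pos h hi1 hj1 hl1 hij hjl hj3
      rw [key i j l hi1 hj1 hl1 hij hjl] at e
      have a1 := hd' i hi1 hi2
      have a2 := hd' l hl1 hl2
      have a3 := h.mono hij
      have a4 := h.mono hjl
      have p1 : (x i - x t) * (x l - x j) * (slope x y t i - slope x y t j) ≤ 0 :=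
        mul_nonpos_of_nonpos_of_nonneg (mul_nonpos_of_nonpos_of_nonneg a1.le (by linarith))
          (by linarith)
      have p2 : (x l - x t) * (x j - x i) * (slope x y t l - slope x y t j) ≤ 0 :=
        mul_nonpos_of_nonpos_of_nonneg (mul_nonpos_of_nonpos_of_nonneg a2.le (by linarith))
          (by linarith)
      linarith
    · -- right, upper: no valley
      right
      rintro i j l hi hj hl hij hjl ⟨h1, h2⟩
      obtain ⟨hi1, hi2, hi3⟩ := grp_inl hi
      obtain ⟨hj1, hj2, hj3⟩ := grp_inl hj
      obtain ⟨hl1, hl2, hl3⟩ := grp_inl hl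
      have e := low_neg h hi1 hj1 hl1 hij hjl hj3
      rw [key i j l hi1 hj1 hl1 hij hjl] at e
      have a1 := hd i hi1 hi2
      have a2 := hd l hl1 hl2
      have a3 := h.mono hij
      have a4 := h.mono hjl
      have p1 : 0 ≤ (x i - x t) * (x l - x j) * (slope x y t i - slope x y t j) :=
        mul_nonneg (mul_nonneg a1.le (by linarith)) (by linarith)
      have p2 : 0 ≤ (x l - x t) * (x j - x i) * (slope x y t l - slope x y t j) :=
        mul_nonneg (mul_nonneg a2.le (by linarith)) (by linarith)
      linarith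
    · -- right, lower: no peak
      left
      rintro i j l hi hj hl hij hjl ⟨h1, h2⟩
      obtain ⟨hi1, hi2, hi3⟩ := grp_inl hi
      obtain ⟨hj1, hj2, hj3⟩ := grp_inl hj
      obtain ⟨hl1, hl2, hl3⟩ := grp_inl hl
      have e := low_pos h hi1 hj1 hl1 hij hjl hj3
      rw [key i j l hi1 hj1 hl1 hij hjl] at e
      have a1 := hd i hi1 hi2
      have a2 := hd l hl1 hl2
      have a3 := h.mono hij
      have a4 := h.mono hjl
      have p1 : (x i - x t) * (x l - x j) * (slope x y t i - slope x y t j) ≤ 0 :=
        mul_nonpos_of_nonneg_of_nonpos (mul_nonneg a1.le (by linarith)) (by linarith)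
      have p2 : (x l - x t) * (x j - x i) * (slope x y t l - slope x y t j) ≤ 0 :=
        mul_nonpos_of_nonneg_of_nonpos (mul_nonneg a2.le (by linarith)) (by linarith)
      linarith
  · left
    intro i j l hi hj hl hij hjl
    have h1 := grp_inr hi
    have h2 := grp_inr hj
    exact absurd (h1.symm.trans h2) hij.ne

end good

/-! ### The code of a configuration -/

/-- labels -/
abbrev Lab (K : ℕ) : Type := ((Bool × Bool) ⊕ Fin K) × Bool

/-- codes -/
abbrev Code (n K : ℕ) : Type :=
  (Fin K → Fin n) × (Fin n → Bool) ×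
    (Fin K → (Fin n → Lab K) × (Lab K → Bool × Finset (Fin (2 * n + 1))))

section coding

variable {n K : ℕ}

theorem exists_lab {x y : Fin n → ℝ} {a : Fin K → Fin n} (h : Good x y a) (u : Fin K) :
    ∃ lab : Fin n → Lab K, ∀ z, MonotoneOn (slope x y (a u)) {j | lab j = z} ∨
      AntitoneOn (slope x y (a u)) {j | lab j = z} :=
  exists_refine _ _ (unimodal h (a u) ⟨u, rfl⟩)

/-- the labels -/
noncomputable def theLab {x y : Fin n → ℝ} {a : Fin K → Fin n} (h : Good x y a) (u : Fin K) :
    Fin n → Lab K := Classical.choose (exists_lab h u)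

theorem theLab_spec {x y : Fin n → ℝ} {a : Fin K → Fin n} (h : Good x y a) (u : Fin K) :
    ∀ z, MonotoneOn (slope x y (a u)) {j | theLab h u j = z} ∨
      AntitoneOn (slope x y (a u)) {j | theLab h u j = z} := Classical.choose_spec (exists_lab h u)

/-- the code -/
noncomputable def code {x y : Fin n → ℝ} {a : Fin K → Fin n} (h : Good x y a) : Code n K :=
  (a, low x y a, fun u => (theLab h u, fun z =>
    (flag (slope x y (a u)) (theLab h u) z, cset (slope x y (a u)) (theLab h u) z)))

theorem D_swap12 (x y : Fin n → ℝ) (i j l : Fin n) : D x y j i l = - D x y i j l := by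
  unfold D; ring

theorem D_swap23 (x y : Fin n → ℝ) (i j l : Fin n) : D x y i l j = - D x y i j l := by
  unfold D; ring

theorem D_self12 (x y : Fin n → ℝ) (i l : Fin n) : D x y i i l = 0 := by
  unfold D; ring

theorem D_self23 (x y : Fin n → ℝ) (i l : Fin n) : D x y i l l = 0 := by
  unfold D; ring

theorem D_self13 (x y : Fin n → ℝ) (i l : Fin n) : D x y i l i = 0 := by
  unfold D; ring

theorem sign_neg_congr {r r' : ℝ} (h : SignType.sign r = SignType.sign r') :
    SignType.sign (-r) = SignType.sign (-r') := by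
  rw [Left.sign_neg, Left.sign_neg, h]

theorem sign_sub_eq {s s' : Fin n → ℝ} (h : rk s = rk s') (i j : Fin n) :
    SignType.sign (s j - s i) = SignType.sign (s' j - s' i) := by
  have h1 : ∀ i j, s i < s j ↔ s' i < s' j := by
    intro i j
    rw [← rk_lt_iff, ← rk_lt_iff, h]
  rcases lt_trichotomy (s i) (s j) with h2 | h2 | h2
  · rw [sign_pos (by linarith), sign_pos (by have := (h1 i j).mp h2; linarith)]
  · have h3 : s' i = s' j := by
      apply le_antisymm
      · exact not_lt.mp (fun h4 => absurd ((h1 j i).mpr h4) (by linarith))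
      · exact not_lt.mp (fun h4 => absurd ((h1 i j).mpr h4) (by linarith))
    rw [h2, h3, sub_self, sub_self]
  · rw [sign_neg (by linarith), sign_neg (by have := (h1 j i).mp h2; linarith)]

theorem sign_x {x x' : Fin n → ℝ} (h : StrictMono x) (h' : StrictMono x') (i j : Fin n) :
    SignType.sign (x j - x i) = SignType.sign (x' j - x' i) := by
  rcases lt_trichotomy i j with h2 | h2 | h2
  · rw [sign_pos (by have := h h2; linarith), sign_pos (by have := h' h2; linarith)]
  · rw [h2, sub_self, sub_self]
  · rw [sign_neg (by have := h h2; linarith), sign_neg (by have := h' h2; linarith)]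

/-- the code determines the orientations -/
theorem sign_eq_of_code {x y x' y' : Fin n → ℝ} {a a' : Fin K → Fin n} (h : Good x y a)
    (h' : Good x' y' a') (hc : code h = code h') (i j l : Fin n) :
    SignType.sign (D x y i j l) = SignType.sign (D x' y' i j l) := by
  unfold code at hc
  simp only [Prod.mk.injEq] at hc
  obtain ⟨h1, h2, h3⟩ := hc
  subst h1
  have h4 : ∀ u, theLab h u = theLab h' u := fun u => congrArg Prod.fst (congrFun h3 u)
  have h5 : ∀ u z, flag (slope x y (a u)) (theLab h u) z = flag (slope x' y' (a u)) (theLab h' u) z :=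
    fun u z => congrArg Prod.fst (congrFun (congrArg Prod.snd (congrFun h3 u)) z)
  have h6 : ∀ u z, cset (slope x y (a u)) (theLab h u) z = cset (slope x' y' (a u)) (theLab h' u) z :=
    fun u z => congrArg Prod.snd (congrFun (congrArg Prod.snd (congrFun h3 u)) z)
  have hr : ∀ u, rk (slope x y (a u)) = rk (slope x' y' (a u)) := by
    intro u
    refine rk_eq_of_code (lab := theLab h u) (theLab_spec h u) ?_ ?_ ?_
    · rw [h4 u]; exact theLab_spec h' u
    · intro z; rw [h5 u z, ← h4 u]
    · intro z; rw [h6 u z, ← h4 u]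
  -- one of the points is marked
  have c1 : ∀ u j l, SignType.sign (D x y (a u) j l) = SignType.sign (D x' y' (a u) j l) := by
    intro u j l
    rw [D_slope h.mono, D_slope h'.mono, sign_mul, sign_mul, sign_mul, sign_mul,
      sign_x h.mono h'.mono, sign_x h.mono h'.mono (a u) l, sign_sub_eq (hr u)]
  have c2 : ∀ u j l, SignType.sign (D x y j (a u) l) = SignType.sign (D x' y' j (a u) l) := by
    intro u j l
    rw [D_swap12 x y (a u) j l, D_swap12 x' y' (a u) j l]
    exact sign_neg_congr (c1 u j l)
  have c3 : ∀ u j l, SignType.sign (D x y j l (a u)) = SignType.sign (D x' y' j l (a u)) := by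
    intro u j l
    rw [D_swap23 x y j (a u) l, D_swap23 x' y' j (a u) l]
    exact sign_neg_congr (c2 u j l)
  by_cases hi : i ∈ Set.range a
  · obtain ⟨u, rfl⟩ := hi; exact c1 u j l
  by_cases hj : j ∈ Set.range a
  · obtain ⟨u, rfl⟩ := hj; exact c2 u i l
  by_cases hl : l ∈ Set.range a
  · obtain ⟨u, rfl⟩ := hl; exact c3 u i j
  -- no marked points
  have s0 : ∀ i j l, i ∉ Set.range a → j ∉ Set.range a → l ∉ Set.range a → i < j → j < l →
      SignType.sign (D x y i j l) = SignType.sign (D x' y' i j l) := by
    intro i j l hi hj hl hij hjl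
    cases hb : low x y a j
    · rw [sign_neg (low_neg h hi hj hl hij hjl hb),
        sign_neg (low_neg h' hi hj hl hij hjl (by rw [← h2]; exact hb))]
    · rw [sign_pos (low_pos h hi hj hl hij hjl hb),
        sign_pos (low_pos h' hi hj hl hij hjl (by rw [← h2]; exact hb))]
  have e12 : ∀ i j l, SignType.sign (D x y j i l) = SignType.sign (D x' y' j i l) →
      SignType.sign (D x y i j l) = SignType.sign (D x' y' i j l) := by
    intro i j l he
    rw [D_swap12 x y j i l, D_swap12 x' y' j i l]
    exact sign_neg_congr he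
  have e23 : ∀ i j l, SignType.sign (D x y i l j) = SignType.sign (D x' y' i l j) →
      SignType.sign (D x y i j l) = SignType.sign (D x' y' i j l) := by
    intro i j l he
    rw [D_swap23 x y i l j, D_swap23 x' y' i l j]
    exact sign_neg_congr he
  rcases lt_trichotomy i j with hij | hij | hij
  · rcases lt_trichotomy j l with hjl | hjl | hjl
    · exact s0 i j l hi hj hl hij hjl
    · subst hjl; rw [D_self23, D_self23]
    · rcases lt_trichotomy i l with hil | hil | hil
      · exact e23 _ _ _ (s0 i l j hi hl hj hil hjl)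
      · subst hil; rw [D_self13, D_self13]
      · exact e23 _ _ _ (e12 _ _ _ (s0 l i j hl hi hj hil hij))
  · subst hij; rw [D_self12, D_self12]
  · rcases lt_trichotomy i l with hil | hil | hil
    · exact e12 _ _ _ (s0 j i l hj hi hl hij hil)
    · subst hil; rw [D_self13, D_self13]
    · rcases lt_trichotomy j l with hjl | hjl | hjl
      · exact e12 _ _ _ (e23 _ _ _ (s0 j l i hj hl hi hjl hil))
      · subst hjl; rw [D_self23, D_self23]
      · exact e12 _ _ _ (e23 _ _ _ (e12 _ _ _ (s0 l j i hl hj hi hjl hij)))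

end coding

/-! ### Sorting a configuration -/

theorem exists_functional {V : Finset Plane} (h : ConvexPosition V) {v : Plane} (hv : v ∈ V) :
    ∃ α β : ℝ, ∀ u ∈ V, u ≠ v → α * u 0 + β * u 1 < α * v 0 + β * v 1 := by
  have h1 := h v hv
  rw [(convex_convexHull ℝ (V : Set Plane)).mem_extremePoints_iff_mem_sdiff_convexHull_sdiff] at h1
  have h2 : v ∉ convexHull ℝ ((V : Set Plane) \ {v}) := by
    intro h3
    apply h1.2
    refine convexHull_mono ?_ h3
    intro p hp
    exact ⟨subset_convexHull ℝ _ hp.1, hp.2⟩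
  have hcl : IsClosed (convexHull ℝ ((V : Set Plane) \ {v})) :=
    (V.finite_toSet.subset Set.sdiff_subset).isClosed_convexHull ℝ
  obtain ⟨f, r, hf1, hf2⟩ := geometric_hahn_banach_closed_point (convex_convexHull ℝ _) hcl h2
  refine ⟨f (EuclideanSpace.single 0 1), f (EuclideanSpace.single 1 1), ?_⟩
  have hf : ∀ p : Plane, f p = f (EuclideanSpace.single 0 1) * p 0 +
      f (EuclideanSpace.single 1 1) * p 1 := by
    intro p
    have hp : p = p 0 • EuclideanSpace.single (0 : Fin 2) (1 : ℝ) +
        p 1 • EuclideanSpace.single (1 : Fin 2) (1 : ℝ) := by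
      ext i
      fin_cases i <;> simp
    conv_lhs => rw [hp]
    rw [map_add, map_smul, map_smul, smul_eq_mul, smul_eq_mul]
    ring
  intro u hu hne
  rw [← hf, ← hf]
  exact (hf1 u (subset_convexHull ℝ _ ⟨hu, hne⟩)).trans hf2

theorem exists_shear (S : Finset Plane) :
    ∃ t : ℝ, ∀ p ∈ S, ∀ q ∈ S, p 0 + t * p 1 = q 0 + t * q 1 → p = q := by
  classical
  obtain ⟨t, ht⟩ := Infinite.exists_notMem_finset
    ((S ×ˢ S).image (fun z : Plane × Plane => (z.2 0 - z.1 0) / (z.1 1 - z.2 1)))
  refine ⟨t, fun p hp q hq h => ?_⟩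
  by_cases h1 : p 1 = q 1
  · have h2 : p 0 = q 0 := by rw [h1] at h; linarith
    ext i
    fin_cases i
    · exact h2
    · exact h1
  · exfalso
    apply ht
    rw [Finset.mem_image]
    refine ⟨(p, q), Finset.mem_product.mpr ⟨hp, hq⟩, ?_⟩
    have h3 : p 1 - q 1 ≠ 0 := sub_ne_zero.mpr h1
    show (q 0 - p 0) / (p 1 - q 1) = t
    rw [div_eq_iff h3]
    linarith

/-- a sorted labelling -/
theorem exists_sorted (S : Finset Plane) {n : ℕ} (hn : S.card = n) :
    ∃ (t : ℝ) (e : Fin n ≃ S), StrictMono (fun i => (e i : Plane) 0 + t * (e i : Plane) 1) := by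
  classical
  obtain ⟨t, ht⟩ := exists_shear S
  let ξ : Plane → ℝ := fun p => p 0 + t * p 1
  let T : Finset ℝ := S.image ξ
  have hT : T.card = n := by
    rw [← hn]
    apply Finset.card_image_of_injOn
    intro p hp q hq h
    exact ht p hp q hq h
  let g : S → T := fun p => ⟨ξ p, Finset.mem_image_of_mem _ p.2⟩
  have hg : Function.Bijective g := by
    constructor
    · intro p q h
      have : ξ p = ξ q := congrArg Subtype.val h
      exact Subtype.ext (ht p p.2 q q.2 this)
    · rintro ⟨r, hr⟩
      obtain ⟨p, hp, rfl⟩ := Finset.mem_image.mp hr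
      exact ⟨⟨p, hp⟩, rfl⟩
  let E := Equiv.ofBijective g hg
  refine ⟨t, (T.orderIsoOfFin hT).toEquiv.trans E.symm, ?_⟩
  intro i j hij
  have key : ∀ i, ξ ((E.symm (T.orderIsoOfFin hT i) : S) : Plane) = (T.orderIsoOfFin hT i : ℝ) := by
    intro i
    have : E (E.symm (T.orderIsoOfFin hT i)) = T.orderIsoOfFin hT i := E.apply_symm_apply _
    exact congrArg Subtype.val this
  show ξ ((E.symm (T.orderIsoOfFin hT i) : S) : Plane) < ξ ((E.symm (T.orderIsoOfFin hT j) : S) : Plane)
  rw [key, key]
  exact (T.orderIsoOfFin hT).strictMono hij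

/-- every configuration close to convex position has a good realization -/
theorem exists_good {K n : ℕ} (hn : 0 < n) {S : Finset Plane} (hS : S.card = n)
    (hD : DTC S < K + 1) :
    ∃ (x y : Fin n → ℝ) (a : Fin K → Fin n) (e : Fin n ≃ S), Good x y a ∧
      ∀ i j l, det3 (e i) (e j) (e l) = D x y i j l := by
  classical
  obtain ⟨V, hVS, hV, hc⟩ := exists_of_DTC_lt hD
  obtain ⟨t, e, he⟩ := exists_sorted S hS
  -- the removed points
  let X : Finset (Fin n) := Finset.univ.filter (fun i => (e i : Plane) ∉ V)
  have hX : X.card ≤ K := by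
    have h1 : (Finset.univ.filter (fun i => (e i : Plane) ∈ V)).card = V.card := by
      apply Finset.card_bij (fun i _ => (e i : Plane))
      · intro i hi
        exact (Finset.mem_filter.mp hi).2
      · intro i _ j _ h
        exact e.injective (Subtype.ext h)
      · intro v hv
        exact ⟨e.symm ⟨v, hVS hv⟩, by simp [hv], by simp⟩
    have h2 := Finset.card_filter_add_card_filter_not (s := (Finset.univ : Finset (Fin n)))
      (fun i => (e i : Plane) ∈ V)
    rw [Finset.card_univ, Fintype.card_fin, h1] at h2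
    have h3 : X.card = (Finset.univ.filter (fun i => ¬ ((e i : Plane) ∈ V))).card := rfl
    omega
  obtain ⟨a, ha⟩ : ∃ a : Fin K → Fin n, ∀ i ∈ X, i ∈ Set.range a := by
    let f := X.equivFin
    refine ⟨fun u => if h : (u : ℕ) < X.card then (f.symm ⟨u, h⟩ : Fin n) else ⟨0, hn⟩, ?_⟩
    intro i hi
    refine ⟨⟨f ⟨i, hi⟩, lt_of_lt_of_le (f ⟨i, hi⟩).2 hX⟩, ?_⟩
    simp
  refine ⟨fun i => (e i : Plane) 0 + t * (e i : Plane) 1, fun i => (e i : Plane) 1, a, e,
    ⟨he, ?_⟩, ?_⟩
  · intro i hi
    have hiV : ∀ i, i ∉ Set.range a → (e i : Plane) ∈ V := by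
      intro i hi
      by_contra hcon
      exact hi (ha i (by simp [X, hcon]))
    obtain ⟨α, β, hαβ⟩ := exists_functional hV (hiV i hi)
    refine ⟨α, β - α * t, fun j hj hji => ?_⟩
    have := hαβ (e j) (hiV j hj) (fun h => hji (e.injective (Subtype.ext h)))
    linarith
  · intro i j l
    unfold det3 D
    ring

/-! ### The upper bound -/

/-- the number of codes -/
theorem card_code (n K : ℕ) : Fintype.card (Code n K) =
    n ^ K * (2 ^ n * (((4 + K) * 2) ^ n * (2 * 2 ^ (2 * n + 1)) ^ ((4 + K) * 2)) ^ K) := by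
  simp [Code, Lab]

theorem exists_injection (n K : ℕ) (hn : 0 < n) :
    ∃ f : classes (K + 1) n → Code n K, Function.Injective f := by
  have h1 : ∀ q : classes (K + 1) n, ∃ (S : Finset Plane) (x y : Fin n → ℝ) (a : Fin K → Fin n)
      (e : Fin n ≃ S), Good x y a ∧ (∀ i j l, det3 (e i) (e j) (e l) = D x y i j l) ∧
        Quotient.mk orderTypeSetoid S = q := by
    rintro ⟨q, S, hS, hD, hq⟩
    obtain ⟨x, y, a, e, h1, h2⟩ := exists_good hn hS hD
    exact ⟨S, x, y, a, e, h1, h2, hq⟩
  choose S x y a e hg hd hq using h1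
  refine ⟨fun q => code (hg q), ?_⟩
  intro q q' h
  apply Subtype.ext
  rw [← hq q, ← hq q']
  apply Quotient.sound
  refine ⟨(e q).symm.trans (e q'), fun u v w => ?_⟩
  have h2 := sign_eq_of_code (hg q) (hg q') h ((e q).symm u) ((e q).symm v) ((e q).symm w)
  rw [← hd q, ← hd q'] at h2
  simp only [Equiv.apply_symm_apply] at h2
  exact h2.symm

theorem classes_finite (k n : ℕ) : (classes k n).Finite := by
  rcases Nat.eq_zero_or_pos n with rfl | hn
  · refine (Set.finite_singleton (Quotient.mk orderTypeSetoid ∅)).subset ?_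
    rintro q ⟨S, hS, -, rfl⟩
    rw [Finset.card_eq_zero] at hS
    subst hS
    rfl
  · cases k with
    | zero =>
      refine Set.finite_empty.subset ?_
      rintro q ⟨S, -, hD, -⟩
      exact absurd hD (Nat.not_lt_zero _)
    | succ K =>
      obtain ⟨f, hf⟩ := exists_injection n K hn
      exact Set.finite_coe_iff.mp (Finite.of_injective f hf)

theorem c_le (n K : ℕ) (hn : 0 < n) : c (K + 1) n ≤
    n ^ K * (2 ^ n * (((4 + K) * 2) ^ n * (2 * 2 ^ (2 * n + 1)) ^ ((4 + K) * 2)) ^ K) := by
  obtain ⟨f, hf⟩ := exists_injection n K hn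
  rw [← card_code]
  unfold c
  rw [← Nat.card_coe_set_eq, ← Nat.card_eq_fintype_card]
  exact Nat.card_le_card_of_injective f hf

/-! ### The lower bound -/

/-- the point of the parabola with parameter `x` -/
noncomputable def P (x : ℝ) : Plane := !₂[x, x ^ 2]

/-- the apex -/
noncomputable def A : Plane := !₂[0, -1]

@[simp] theorem P_zero (x : ℝ) : (P x) 0 = x := by simp [P]
@[simp] theorem P_one (x : ℝ) : (P x) 1 = x ^ 2 := by simp [P]
@[simp] theorem A_zero : A 0 = 0 := by simp [A]
@[simp] theorem A_one : A 1 = -1 := by simp [A]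

theorem P_injective : Function.Injective P := by
  intro x y h
  have : (P x) 0 = (P y) 0 := by rw [h]
  simpa using this

theorem P_ne_A (x : ℝ) : P x ≠ A := by
  intro h
  have h1 : (P x) 1 = A 1 := by rw [h]
  simp only [P_one, A_one] at h1
  nlinarith [sq_nonneg x]

theorem det_A (x y : ℝ) : det3 A (P x) (P y) = (y - x) * (x * y - 1) := by
  simp [det3]; ring

theorem det_P (x y z : ℝ) : det3 (P x) (P y) (P z) = (y - x) * (z - x) * (z - y) := by
  simp [det3]; ring

theorem extreme_P {V : Finset Plane} (hV : ∀ p ∈ V, ∃ x, p = P x) : ConvexPosition V := by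
  intro p hp
  obtain ⟨x, rfl⟩ := hV p hp
  have hconv : Convex ℝ {q : Plane | (q 0) ^ 2 ≤ q 1} := by
    intro u hu v hv a b ha hb hab
    simp only [Set.mem_ofPred_eq] at hu hv ⊢
    simp only [PiLp.add_apply, PiLp.smul_apply, smul_eq_mul]
    have hb' : b = 1 - a := by linarith
    subst hb'
    nlinarith [mul_le_mul_of_nonneg_left hu ha, mul_le_mul_of_nonneg_left hv hb,
      mul_nonneg (mul_nonneg ha hb) (sq_nonneg (u 0 - v 0))]
  have hsub : convexHull ℝ (V : Set Plane) ⊆ {q : Plane | (q 0) ^ 2 ≤ q 1} := by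
    apply convexHull_min _ hconv
    intro q hq
    obtain ⟨z, rfl⟩ := hV q (Finset.mem_coe.mp hq)
    simp
  rw [mem_extremePoints_iff_left]
  refine ⟨subset_convexHull ℝ _ hp, ?_⟩
  intro u hu v hv h
  have hu' := hsub hu
  have hv' := hsub hv
  simp only [Set.mem_ofPred_eq] at hu' hv'
  obtain ⟨a, b, ha, hb, hab, hP⟩ := h
  have h0 : a * u 0 + b * v 0 = x := by
    have := congrArg (fun q : Plane => q 0) hP
    simpa using this
  have h1 : a * u 1 + b * v 1 = x ^ 2 := by
    have := congrArg (fun q : Plane => q 1) hP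
    simpa using this
  have hb' : b = 1 - a := by linarith
  have hab0 : 0 < a * b := mul_pos ha hb
  have e1 : a * b * (u 0 - v 0) ^ 2 ≤ 0 := by
    have e2 : a * (u 0) ^ 2 + b * (v 0) ^ 2 - (a * u 0 + b * v 0) ^ 2 =
        a * b * (u 0 - v 0) ^ 2 := by
      subst hb'; ring
    rw [← e2, h0]
    nlinarith [mul_le_mul_of_nonneg_left hu' ha.le, mul_le_mul_of_nonneg_left hv' hb.le]
  have e3 : u 0 = v 0 := by
    have : (u 0 - v 0) ^ 2 ≤ 0 := by
      by_contra hc
      have := mul_pos hab0 (not_le.mp hc)
      linarith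
    have := pow_eq_zero_iff (two_ne_zero) |>.mp (le_antisymm this (sq_nonneg _))
    linarith
  have e4 : u 0 = x := by
    rw [← e3, hb'] at h0
    linarith
  have e5 : u 1 = x ^ 2 := by
    rw [← e3, e4] at hv'
    rw [e4] at hu'
    apply le_antisymm _ hu'
    by_contra hc
    have := mul_lt_mul_of_pos_left (not_le.mp hc) ha
    have := mul_le_mul_of_nonneg_left hv' hb.le
    rw [hb'] at h1 this
    linarith
  ext i
  fin_cases i
  · simpa using e4
  · simpa using e5

section lower

variable {p : ℕ}

/-- the word, extended by `true` -/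
def W (v : Fin p → Bool) (i : ℕ) : Bool := if h : 1 ≤ i ∧ i ≤ p then v ⟨i - 1, by omega⟩ else true

/-- the parameters of the points -/
noncomputable def X (v : Fin p → Bool) (i : ℕ) : ℝ :=
  if W v i = true then (i : ℝ) + 2 else 1 / ((i : ℝ) + 2)

theorem X_pos (v : Fin p → Bool) (i : ℕ) : 0 < X v i := by
  unfold X
  split_ifs <;> positivity

theorem X_le (v : Fin p → Bool) (i : ℕ) : X v i ≤ (i : ℝ) + 2 := by
  unfold X
  have hi : (0 : ℝ) ≤ i := Nat.cast_nonneg i
  split_ifs
  · exact le_refl _
  · rw [div_le_iff₀ (by linarith)]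
    nlinarith

theorem le_X (v : Fin p → Bool) (i : ℕ) : 1 / ((i : ℝ) + 2) ≤ X v i := by
  unfold X
  have hi : (0 : ℝ) ≤ i := Nat.cast_nonneg i
  split_ifs
  · rw [div_le_iff₀ (by linarith)]
    nlinarith
  · exact le_refl _

/-- later parameters are more extreme -/
theorem X_lt_of_true (v : Fin p → Bool) {i j : ℕ} (hij : i < j) (hw : W v j = true) :
    X v i < X v j := by
  refine lt_of_le_of_lt (X_le v i) ?_
  unfold X
  rw [if_pos hw]
  have : (i : ℝ) < j := by exact_mod_cast hij
  linarith

theorem X_lt_of_false (v : Fin p → Bool) {i j : ℕ} (hij : i < j) (hw : W v j = false) :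
    X v j < X v i := by
  refine lt_of_lt_of_le ?_ (le_X v i)
  unfold X
  rw [if_neg (by simp [hw])]
  have : (i : ℝ) < j := by exact_mod_cast hij
  have hi : (0 : ℝ) ≤ i := Nat.cast_nonneg i
  apply one_div_lt_one_div_of_lt <;> linarith

theorem X_inj (v : Fin p → Bool) {i j : ℕ} (h : X v i = X v j) : i = j := by
  rcases lt_trichotomy i j with h1 | h1 | h1
  · cases hw : W v j
    · have := X_lt_of_false v h1 hw; linarith
    · have := X_lt_of_true v h1 hw; linarith
  · exact h1
  · cases hw : W v i
    · have := X_lt_of_false v h1 hw; linarith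
    · have := X_lt_of_true v h1 hw; linarith

/-- angular order around the apex -/
theorem det_A_pos (v : Fin p → Bool) {i j : ℕ} (hij : i < j) :
    0 < det3 A (P (X v i)) (P (X v j)) := by
  rw [det_A]
  have hij' : (i : ℝ) < j := by exact_mod_cast hij
  have hi : (0 : ℝ) ≤ i := Nat.cast_nonneg i
  cases hw : W v j
  · have h1 := X_lt_of_false v hij hw
    have h2 : X v i * X v j < 1 := by
      have h3 : X v j = 1 / ((j : ℝ) + 2) := by
        unfold X; rw [if_neg (by simp [hw])]
      rw [h3, mul_one_div, div_lt_one (by linarith)]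
      have := X_le v i
      linarith
    exact mul_pos_of_neg_of_neg (by linarith) (by linarith)
  · have h1 := X_lt_of_true v hij hw
    have h2 : 1 < X v i * X v j := by
      have h3 : X v j = (j : ℝ) + 2 := by
        unfold X; rw [if_pos hw]
      rw [h3]
      have := le_X v i
      have h4 : 1 / ((i : ℝ) + 2) * ((j : ℝ) + 2) ≤ X v i * ((j : ℝ) + 2) :=
        mul_le_mul_of_nonneg_right this (by linarith)
      refine lt_of_lt_of_le ?_ h4
      rw [one_div, inv_mul_eq_div, one_lt_div (by linarith)]
      linarith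
    exact mul_pos (by linarith) (by linarith)

theorem det_A_pos_iff (v : Fin p → Bool) {i j : ℕ} :
    0 < det3 A (P (X v i)) (P (X v j)) ↔ i < j := by
  constructor
  · intro h
    by_contra hc
    rcases (not_lt.mp hc).eq_or_lt with h1 | h1
    · subst h1
      rw [det_A, sub_self, zero_mul] at h
      exact lt_irrefl _ h
    · have h2 := det_A_pos v h1
      rw [det_A] at h h2
      nlinarith
  · exact det_A_pos v

/-- the letters are read off the triples with the first and the last point -/
theorem det_P_pos_iff (v : Fin p → Bool) {i : ℕ} (h0 : 0 < i) (hi : i < p + 1) :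
    0 < det3 (P (X v 0)) (P (X v i)) (P (X v (p + 1))) ↔ W v i = true := by
  rw [det_P]
  have hl : W v (p + 1) = true := by
    unfold W
    rw [dif_neg (by omega)]
  have h1 := X_lt_of_true v (show 0 < p + 1 by omega) hl
  have h2 := X_lt_of_true v hi hl
  cases hw : W v i
  · have h3 := X_lt_of_false v h0 hw
    simp only [Bool.false_eq_true, iff_false, not_lt]
    exact mul_nonpos_of_nonpos_of_nonneg (mul_nonpos_of_nonpos_of_nonneg (by linarith)
      (by linarith)) (by linarith)
  · have h3 := X_lt_of_true v h0 hw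
    simp only [iff_true]
    exact mul_pos (mul_pos (by linarith) (by linarith)) (by linarith)

open Classical in
/-- the points on the parabola -/
noncomputable def V (v : Fin p → Bool) : Finset Plane :=
  (Finset.range (p + 2)).image (fun i => P (X v i))

open Classical in
/-- the configuration -/
noncomputable def S (v : Fin p → Bool) : Finset Plane := insert A (V v)

theorem mem_V {v : Fin p → Bool} {q : Plane} : q ∈ V v ↔ ∃ i < p + 2, P (X v i) = q := by
  unfold V
  simp

theorem A_notMem_V (v : Fin p → Bool) : A ∉ V v := by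
  rw [mem_V]
  rintro ⟨i, -, h⟩
  exact P_ne_A _ h

theorem card_V (v : Fin p → Bool) : (V v).card = p + 2 := by
  unfold V
  rw [Finset.card_image_of_injective _ (fun i j h => X_inj v (P_injective h)), Finset.card_range]

theorem card_S (v : Fin p → Bool) : (S v).card = p + 3 := by
  unfold S
  rw [Finset.card_insert_of_notMem (A_notMem_V v), card_V]

theorem A_mem (v : Fin p → Bool) : A ∈ S v := Finset.mem_insert_self _ _

theorem P_mem (v : Fin p → Bool) {i : ℕ} (hi : i < p + 2) : P (X v i) ∈ S v :=
  Finset.mem_insert_of_mem (mem_V.mpr ⟨i, hi, rfl⟩)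

theorem DTC_S (v : Fin p → Bool) : DTC (S v) ≤ 1 := by
  unfold DTC
  apply Nat.sInf_le
  refine ⟨V v, Finset.subset_insert _ _, extreme_P ?_, ?_⟩
  · intro q hq
    obtain ⟨i, -, h⟩ := mem_V.mp hq
    exact ⟨_, h.symm⟩
  · rw [card_V, card_S]

theorem pos_iff_of_orient {a b c a' b' c' : Plane} (h : orient a b c = orient a' b' c') :
    0 < det3 a b c ↔ 0 < det3 a' b' c' := by
  unfold orient at h
  rw [← sign_eq_one_iff, h, sign_eq_one_iff]

theorem strictMono_eq_id {N : ℕ} {φ : Fin N → Fin N} (h : StrictMono φ) (i : Fin N) : φ i = i :=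
  le_antisymm h.apply_le h.le_apply

/-- an equivalence fixing the apex preserves the word -/
theorem eq_of_equiv {v v' : Fin p → Bool} (ψ : S v ≃ S v')
    (hψ : ∀ a b c : S v, orient (ψ a : Plane) (ψ b : Plane) (ψ c : Plane) =
      orient (a : Plane) (b : Plane) (c : Plane))
    (hA : (ψ ⟨A, A_mem v⟩ : Plane) = A) : v = v' := by
  have h1 : ∀ i : Fin (p + 2), ∃ j : Fin (p + 2), P (X v' j) = (ψ ⟨P (X v i), P_mem v i.2⟩ : Plane) := by
    intro i
    have h2 : (ψ ⟨P (X v i), P_mem v i.2⟩ : Plane) ∈ S v' := (ψ _).2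
    rcases Finset.mem_insert.mp h2 with h3 | h3
    · exfalso
      have h4 : ψ ⟨P (X v i), P_mem v i.2⟩ = ψ ⟨A, A_mem v⟩ := Subtype.ext (h3.trans hA.symm)
      have h5 := congrArg Subtype.val (ψ.injective h4)
      exact P_ne_A _ h5
    · obtain ⟨j, hj, h4⟩ := mem_V.mp h3
      exact ⟨⟨j, hj⟩, h4⟩
  choose φ hφ using h1
  have hmono : StrictMono φ := by
    intro i j hij
    have h2 := pos_iff_of_orient (hψ ⟨A, A_mem v⟩ ⟨P (X v i), P_mem v i.2⟩ ⟨P (X v j), P_mem v j.2⟩)
    rw [hA, ← hφ i, ← hφ j, det_A_pos_iff, det_A_pos_iff] at h2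
    exact h2.mpr hij
  have hid : ∀ i : Fin (p + 2), (ψ ⟨P (X v i), P_mem v i.2⟩ : Plane) = P (X v' i) := by
    intro i
    rw [← hφ i, strictMono_eq_id hmono i]
  funext u
  have h2 := pos_iff_of_orient (hψ ⟨P (X v 0), P_mem v (by omega)⟩
    ⟨P (X v (u + 1)), P_mem v (by omega)⟩ ⟨P (X v (p + 1)), P_mem v (by omega)⟩)
  have e0 := hid ⟨0, by omega⟩
  have e1 := hid ⟨u + 1, by omega⟩
  have e2 := hid ⟨p + 1, by omega⟩
  simp only at e0 e1 e2
  rw [e0, e1, e2, det_P_pos_iff v' (by omega) (by omega), det_P_pos_iff v (by omega) (by omega)] at h2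
  have w1 : ∀ v : Fin p → Bool, W v (u + 1) = v u := by
    intro v
    unfold W
    rw [dif_pos (by omega)]
    congr 1
  rw [w1, w1] at h2
  exact (Bool.eq_iff_iff.mpr h2).symm

theorem le_c {k : ℕ} (hk : 2 ≤ k) (p : ℕ) : 2 ^ p ≤ (p + 3) * c k (p + 3) := by
  classical
  have hfin := classes_finite k (p + 3)
  have h1 : c k (p + 3) = hfin.toFinset.card := Set.ncard_eq_toFinset_card _ hfin
  rw [h1]
  let F : (Fin p → Bool) → Quotient orderTypeSetoid := fun v => Quotient.mk _ (S v)
  have h2 := Finset.card_le_mul_card_image_of_maps_to (s := (Finset.univ : Finset (Fin p → Bool)))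
    (f := F) (t := hfin.toFinset) (fun v _ => by
      rw [Set.Finite.mem_toFinset]
      exact ⟨S v, card_S v, lt_of_le_of_lt (DTC_S v) (by omega), rfl⟩) (p + 3) (by
      intro q _
      rcases (Finset.univ.filter (fun v => F v = q)).eq_empty_or_nonempty with h | ⟨v0, hv0⟩
      · rw [h]; simp
      · rw [Finset.mem_filter] at hv0
        have hex : ∀ v : {v // v ∈ Finset.univ.filter (fun v => F v = q)},
            SameOrderType (S v.1) (S v0) := by
          rintro ⟨v, hv⟩
          rw [Finset.mem_filter] at hv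
          exact Quotient.exact (hv.2.trans hv0.2.symm)
        choose e he using hex
        have hinj : Function.Injective
            (fun v : {v // v ∈ Finset.univ.filter (fun v => F v = q)} => e v ⟨A, A_mem v.1⟩) := by
          intro v v' hvv
          apply Subtype.ext
          refine eq_of_equiv ((e v).trans (e v').symm) ?_ ?_
          · intro a b c
            have h3 := he v a b c
            have h4 := he v' ((e v').symm (e v a)) ((e v').symm (e v b)) ((e v').symm (e v c))
            simp only [Equiv.apply_symm_apply] at h4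
            rw [h3] at h4
            exact h4.symm
          · have h3 : e v ⟨A, A_mem v.1⟩ = e v' ⟨A, A_mem v'.1⟩ := hvv
            simp only [Equiv.trans_apply]
            rw [h3, Equiv.symm_apply_apply]
        have h5 := Fintype.card_le_of_injective _ hinj
        rw [Fintype.card_coe, Fintype.card_coe, card_S] at h5
        exact h5)
  simpa using h2

end lower

/-! ### The growth rate -/

theorem upper_real (K : ℕ) : ∃ C : ℝ, 1 ≤ C ∧ ∀ n : ℕ, 0 < n → (c (K + 1) n : ℝ) ≤ C ^ n := by
  let L : ℕ := (4 + K) * 2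
  refine ⟨((2 ^ K * (2 * (L * 2 ^ (4 * L)) ^ K) : ℕ) : ℝ), ?_, ?_⟩
  · have : 1 ≤ 2 ^ K * (2 * (L * 2 ^ (4 * L)) ^ K) := by
      apply Nat.one_le_iff_ne_zero.mpr
      have : L ≠ 0 := by show (4 + K) * 2 ≠ 0; omega
      positivity
    exact_mod_cast this
  · intro n hn
    have h1 := c_le n K hn
    have h2 : n ^ K * (2 ^ n * (((4 + K) * 2) ^ n * (2 * 2 ^ (2 * n + 1)) ^ ((4 + K) * 2)) ^ K) ≤
        (2 ^ K * (2 * (L * 2 ^ (4 * L)) ^ K)) ^ n := by
      have e1 : n ^ K ≤ (2 ^ K) ^ n := by
        rw [← pow_mul, mul_comm, pow_mul]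
        exact Nat.pow_le_pow_left Nat.lt_two_pow_self.le K
      have e2 : (2 * 2 ^ (2 * n + 1)) ^ L ≤ (2 ^ (4 * L)) ^ n := by
        rw [← pow_succ', ← pow_mul, ← pow_mul]
        apply Nat.pow_le_pow_right (by norm_num)
        nlinarith
      calc n ^ K * (2 ^ n * (L ^ n * (2 * 2 ^ (2 * n + 1)) ^ L) ^ K)
          ≤ (2 ^ K) ^ n * (2 ^ n * (L ^ n * (2 ^ (4 * L)) ^ n) ^ K) := by gcongr
        _ = (2 ^ K * (2 * (L * 2 ^ (4 * L)) ^ K)) ^ n := by
          generalize L = L'
          generalize 2 ^ (4 * L') = M
          rw [mul_pow (2 ^ K), mul_pow 2, ← mul_pow L' M n, ← pow_mul, ← pow_mul, ← pow_mul,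
            mul_comm n K]
    exact_mod_cast h1.trans h2

theorem lower_real {k : ℕ} (hk : 2 ≤ k) {n : ℕ} (hn : 3 ≤ n) :
    (n : ℝ) * Real.log 2 - 3 * Real.log 2 - Real.log n ≤ Real.log (c k n) := by
  obtain ⟨p, rfl⟩ : ∃ p, n = p + 3 := ⟨n - 3, by omega⟩
  have h1 := le_c hk p
  have hc : c k (p + 3) ≠ 0 := by
    intro h
    rw [h, mul_zero] at h1
    have : 0 < 2 ^ p := by positivity
    omega
  have h2 : ((2 : ℝ)) ^ p ≤ ((p + 3 : ℕ) : ℝ) * (c k (p + 3) : ℝ) := by exact_mod_cast h1
  have h3 := Real.log_le_log (by positivity) h2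
  rw [Real.log_pow, Real.log_mul (by positivity) (by exact_mod_cast hc)] at h3
  push_cast at h3 ⊢
  linarith

/-- For every fixed `k ≥ 2`, the number `c_k(n)` of order types of `n`-point configurations with
`DTC < k` is finite for every `n`, and `log c_k(n) = Θ(n)`. -/
theorem result : ∀ k : ℕ, 2 ≤ k → (∀ n : ℕ, (classes k n).Finite) ∧
    (fun n : ℕ => Real.log (c k n)) =Θ[atTop] (fun n : ℕ => (n : ℝ)) := by
  intro k hk
  refine ⟨classes_finite k, ?_⟩
  have hlog : ∀ᶠ n : ℕ in atTop, Real.log (n : ℝ) ≤ 1 / 10 * (n : ℝ) := by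
    have h1 := Real.isLittleO_log_id_atTop.def (show (0 : ℝ) < 1 / 10 by norm_num)
    have h2 := tendsto_natCast_atTop_atTop.eventually h1
    filter_upwards [h2] with n hn
    rw [Real.norm_eq_abs, Real.norm_eq_abs] at hn
    simp only [id] at hn
    rw [abs_of_nonneg (Nat.cast_nonneg n : (0 : ℝ) ≤ n)] at hn
    exact (le_abs_self _).trans hn
  have hlow : ∀ᶠ n : ℕ in atTop, 1 / 4 * (n : ℝ) ≤ Real.log (c k n) := by
    filter_upwards [hlog, eventually_ge_atTop 30] with n h1 h2
    have h3 := lower_real hk (show 3 ≤ n by omega)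
    have h4 := Real.log_two_gt_d9
    have h5 := Real.log_two_lt_d9
    have h6 : (30 : ℝ) ≤ n := by exact_mod_cast h2
    nlinarith
  constructor
  · obtain ⟨K, rfl⟩ : ∃ K, k = K + 1 := ⟨k - 1, by omega⟩
    obtain ⟨C, hC, hup⟩ := upper_real K
    apply IsBigO.of_bound (Real.log C)
    filter_upwards [hlow, eventually_gt_atTop 0] with n h1 h2
    have h3 : (0 : ℝ) ≤ 1 / 4 * n := by positivity
    rw [Real.norm_eq_abs, abs_of_nonneg (by linarith), Real.norm_eq_abs,
      abs_of_nonneg (Nat.cast_nonneg n)]
    by_cases hc : c (K + 1) n = 0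
    · rw [hc]
      simp only [Nat.cast_zero, Real.log_zero]
      exact mul_nonneg (Real.log_nonneg hC) (Nat.cast_nonneg n)
    · have h4 := Real.log_le_log (by
        have : 0 < c (K + 1) n := Nat.pos_of_ne_zero hc
        exact_mod_cast this) (hup n h2)
      rw [Real.log_pow] at h4
      linarith
  · apply IsBigO.of_bound 4
    filter_upwards [hlow] with n h1
    have h3 : (0 : ℝ) ≤ 1 / 4 * n := by positivity
    rw [Real.norm_eq_abs, Real.norm_eq_abs, abs_of_nonneg (Nat.cast_nonneg n : (0 : ℝ) ≤ n),
      abs_of_nonneg (by linarith)]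
    linarith

end Pool.Agent.Results.MP_6a769b_co.LogLinear
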